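import Pool.Agent.K3h2.LT.Stm
import Pool.Agent.K3h34.LT.Refl

/-!
# The normalised orbit exists and is dominated
-/

set_option autoImplicit false

open Filter Topology

namespace Pool.Agent.K3h49.LT

open Pool.Agent.K3h2.LT

theorem anti_le {f : ℤ → ℝ} {b : ℤ} (h : ∀ k, b ≤ k → f (k + 1) ≤ f k) {x y : ℤ} (hx : b ≤ x)
    (hxy : x ≤ y) : f y ≤ f x := by
  induction y, hxy using Int.le_induction with
  | base => exact le_rfl
  | succ y hy ih => exact (h y (hx.trans hy)).trans ih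

/-- exponential decay to the right -/
theorem tail {s : ℕ → ℤ → ℝ} {q : ℝ} (hq : 0 ≤ q) {b : ℤ} (h0 : ∀ k, b < k → s 0 k = 0)
    (hn : ∀ n k, 0 ≤ s n k) (hc : ∀ n, HasSum (fun k => s n k ^ 3) 1)
    (hanti : ∀ n k, b ≤ k → s n (k + 1) ≤ s n k)
    (hstep : ∀ n k, b ≤ k → s (n + 1) (k + 1) ≤ q * s n k ^ 2) :
    ∃ j0 : ℕ, ∀ n (i : ℕ), s n (b + j0 + i) ≤ (1 / 2) ^ i := by
  have hle : ∀ n k, s n k ≤ 1 := fun n k => by
    have h1 : s n k ^ 3 ≤ 1 := le_hasSum (hc n) k fun j _ => pow_nonneg (hn n j) 3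
    by_contra hcon
    push Not at hcon
    exact absurd h1 (not_le.2 (one_lt_pow₀ hcon (by norm_num)))
  have hcube : ∀ n (j : ℕ), ((j : ℝ) + 1) * s n (b + j) ^ 3 ≤ 1 := by
    intro n j
    have h1 : ∑ i ∈ Finset.Icc b (b + j), s n i ^ 3 ≤ 1 :=
      sum_le_hasSum _ (fun i _ => pow_nonneg (hn n i) 3) (hc n)
    have h2 := Finset.card_nsmul_le_sum (Finset.Icc b (b + j)) (fun i => s n i ^ 3)
      (s n (b + j) ^ 3) (fun x hx => by
        rw [Finset.mem_Icc] at hx
        exact pow_le_pow_left₀ (hn n _) (anti_le (hanti n) hx.1 hx.2) 3)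
    rw [Int.card_Icc, show (b + (j : ℤ) + 1 - b).toNat = j + 1 by omega, nsmul_eq_mul] at h2
    push_cast at h2
    exact h2.trans h1
  obtain ⟨j0, hj0⟩ := exists_nat_ge ((2 * q) ^ 3)
  have hhalf : ∀ n (i : ℕ), q * s n (b + j0 + i) ≤ 1 / 2 := by
    intro n i
    have h1 := hcube n j0
    have h2 : s n (b + j0 + i) ≤ s n (b + j0) :=
      anti_le (hanti n) (by omega) (by omega)
    have h3 : (2 * q * s n (b + j0)) ^ 3 ≤ 1 := by
      calc (2 * q * s n (b + j0)) ^ 3 = (2 * q) ^ 3 * s n (b + j0) ^ 3 := by ring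
        _ ≤ ((j0 : ℝ) + 1) * s n (b + j0) ^ 3 :=
            mul_le_mul_of_nonneg_right (by linarith) (pow_nonneg (hn _ _) 3)
        _ ≤ 1 := h1
    have h4 : 2 * q * s n (b + j0) ≤ 1 := by
      by_contra hcon
      push Not at hcon
      exact absurd h3 (not_le.2 (one_lt_pow₀ hcon (by norm_num)))
    have h5 : q * s n (b + j0 + i) ≤ q * s n (b + j0) := mul_le_mul_of_nonneg_left h2 hq
    linarith
  refine ⟨j0 + 1, fun n => ?_⟩
  induction n with
  | zero =>
    intro i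
    rw [h0 _ (by push_cast; omega)]
    positivity
  | succ n ih =>
    intro i
    cases i with
    | zero => simpa using hle (n + 1) _
    | succ i =>
      have e : b + ((j0 + 1 : ℕ) : ℤ) + ((i + 1 : ℕ) : ℤ) = b + ((j0 + 1 : ℕ) : ℤ) + i + 1 := by
        push_cast; ring
      rw [e]
      refine (hstep n _ (by push_cast; omega)).trans ?_
      have h1 := hhalf n (i + 1)
      have e2 : b + (j0 : ℤ) + ((i + 1 : ℕ) : ℤ) = b + ((j0 + 1 : ℕ) : ℤ) + i := by
        push_cast; ring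
      rw [e2] at h1
      calc q * s n (b + ((j0 + 1 : ℕ) : ℤ) + i) ^ 2
          = (q * s n (b + ((j0 + 1 : ℕ) : ℤ) + i)) * s n (b + ((j0 + 1 : ℕ) : ℤ) + i) := by ring
        _ ≤ (1 / 2) * (1 / 2) ^ i := mul_le_mul h1 (ih i) (hn _ _) (by norm_num)
        _ = (1 / 2) ^ (i + 1) := by ring

/-- the square roots of the partition functions -/
noncomputable def Y (S : Finset ℤ) : ℕ → ℤ → ℝ
  | 0, k => if k ∈ S then 1 else 0
  | n + 1, k => Y S n (k - 1) ^ 2 + Y S n k ^ 2 + Y S n (k + 1) ^ 2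

variable {S : Finset ℤ}

theorem Y_nonneg (n : ℕ) (k : ℤ) : 0 ≤ Y S n k := by
  cases n with
  | zero => rw [Y]; split_ifs <;> norm_num
  | succ n => rw [Y]; positivity

theorem Zc_eq (n : ℕ) : ∀ k, (Zc 2 S n k : ℝ) = Y S n k ^ 2 := by
  induction n with
  | zero =>
    intro k
    rw [Zc, Y]
    split_ifs <;> simp
  | succ n ih =>
    intro k
    rw [Zc, Y]
    push_cast
    rw [ih, ih, ih]

theorem Y_zero {b : ℤ} (hb : ∀ k ∈ S, k ≤ b) (n : ℕ) : ∀ k, b + n < k → Y S n k = 0 := by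
  induction n with
  | zero =>
    intro k hk
    rw [Y, if_neg]
    intro h
    have := hb k h
    simp at hk
    omega
  | succ n ih =>
    intro k hk
    push_cast at hk
    rw [Y, ih _ (by omega), ih _ (by omega), ih _ (by omega)]
    norm_num

theorem Y_zero' {a : ℤ} (ha : ∀ k ∈ S, a ≤ k) (n : ℕ) : ∀ k, k < a - n → Y S n k = 0 := by
  induction n with
  | zero =>
    intro k hk
    rw [Y, if_neg]
    intro h
    have := ha k h
    simp at hk
    omega
  | succ n ih =>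
    intro k hk
    push_cast at hk
    rw [Y, ih _ (by omega), ih _ (by omega), ih _ (by omega)]
    norm_num

theorem Y_pos {m : ℤ} (hm : m ∈ S) (n : ℕ) : 0 < Y S n m := by
  induction n with
  | zero => rw [Y, if_pos hm]; norm_num
  | succ n ih => rw [Y]; positivity

theorem le_of_sq {x y : ℝ} (hy : 0 ≤ y) (h : x ^ 2 ≤ y ^ 2) : x ≤ y := by
  nlinarith [sq_nonneg (x - y), sq_nonneg (x + y), abs_le_of_sq_le_sq' h hy]

theorem Y_anti {b : ℤ} (hb : ∀ k ∈ S, k ≤ b) (n : ℕ) {k : ℤ} (hk : b ≤ k) :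
    Y S n (k + 1) ≤ Y S n k := by
  have h := Pool.Agent.K3h34.LT.anti_right (v := fun n k => (Zc 2 S n k : ℝ)) (d := 2)
    (fun k => Nat.cast_nonneg _) (fun n k => by simp only [Zc]; push_cast; ring) (b := b)
    (fun k hk => by
      simp only [Zc]
      rw [if_neg (fun h => by have := hb k h; omega)]
      norm_num) n hk
  simp only [Zc_eq] at h
  exact le_of_sq (Y_nonneg _ _) h

theorem Y_anti' {a : ℤ} (ha : ∀ k ∈ S, a ≤ k) (n : ℕ) {k : ℤ} (hk : k ≤ a) :
    Y S n (k - 1) ≤ Y S n k := by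
  have h := Pool.Agent.K3h34.LT.anti_left (v := fun n k => (Zc 2 S n k : ℝ)) (d := 2)
    (fun k => Nat.cast_nonneg _) (fun n k => by simp only [Zc]; push_cast; ring) (a := a)
    (fun k hk => by
      simp only [Zc]
      rw [if_neg (fun h => by have := ha k h; omega)]
      norm_num) n hk
  simp only [Zc_eq] at h
  exact le_of_sq (Y_nonneg _ _) h

theorem half_le {R m i : ℕ} (h : m ≤ i + R) : (1 / 2 : ℝ) ^ i ≤ 2 ^ R * (1 / 2) ^ m := by
  have h1 : (1 / 2 : ℝ) ^ (i + R) ≤ (1 / 2) ^ m :=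
    pow_le_pow_of_le_one (by norm_num) (by norm_num) h
  calc (1 / 2 : ℝ) ^ i = 2 ^ R * (1 / 2) ^ (i + R) := by
        rw [pow_add, mul_left_comm, ← mul_pow]
        norm_num
    _ ≤ 2 ^ R * (1 / 2) ^ m := mul_le_mul_of_nonneg_left h1 (by positivity)

theorem t_ORB : S_ENE → S_ORB := by
  intro hE S hS
  obtain ⟨m, hm⟩ := hS
  obtain ⟨b, hb⟩ : ∃ b, ∀ k ∈ S, k ≤ b := ⟨S.max' ⟨m, hm⟩, fun k hk => S.le_max' k hk⟩
  obtain ⟨a, ha⟩ : ∃ a, ∀ k ∈ S, a ≤ k := ⟨S.min' ⟨m, hm⟩, fun k hk => S.min'_le k hk⟩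
  have hfin : ∀ n, (Function.support (Y S n)).Finite := fun n => by
    refine (Set.finite_Icc (a - n) (b + n)).subset fun k hk => ?_
    rw [Function.mem_support] at hk
    refine ⟨?_, ?_⟩
    · by_contra h
      exact hk (Y_zero' ha n k (by omega))
    · by_contra h
      exact hk (Y_zero hb n k (by omega))
  have hsumm3 : ∀ n, Summable fun k => Y S n k ^ 3 := fun n =>
    summable_of_hasFiniteSupport ((hfin n).subset fun k hk => by
      rw [Function.mem_support] at hk ⊢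
      intro h
      exact hk (by rw [h]; norm_num))
  have hT : ∀ n, 0 < ∑' k, Y S n k ^ 3 := fun n =>
    (hsumm3 n).tsum_pos (fun k => pow_nonneg (Y_nonneg n k) 3) m (pow_pos (Y_pos hm n) 3)
  obtain ⟨c, hc0, hc3⟩ : ∃ c : ℕ → ℝ, (∀ n, 0 < c n) ∧ ∀ n, c n ^ 3 = ∑' k, Y S n k ^ 3 := by
    refine ⟨fun n => (∑' k, Y S n k ^ 3) ^ ((1 : ℝ) / 3), fun n => Real.rpow_pos_of_pos (hT n) _,
      fun n => ?_⟩
    rw [← Real.rpow_natCast, ← Real.rpow_mul (hT n).le]
    norm_num
  have hcne : ∀ n, c n ≠ 0 := fun n => (hc0 n).ne'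
  let s : ℕ → ℤ → ℝ := fun n k => Y S n k / c n
  let lam : ℕ → ℝ := fun n => c (n + 1) / c n ^ 2
  have hs : ∀ n k, s n k = Y S n k / c n := fun _ _ => rfl
  have hlam : ∀ n, lam n = c (n + 1) / c n ^ 2 := fun _ => rfl
  have hO : Orb0 s lam := by
    refine ⟨fun n k => div_nonneg (Y_nonneg n k) (hc0 n).le, fun n => ?_, fun n => ?_,
      fun n => div_pos (hc0 _) (pow_pos (hc0 _) 2), fun n k => ?_⟩
    · exact (summable_of_hasFiniteSupport (hfin n)).div_const _
    · have h1 := (hsumm3 n).hasSum.div_const (c n ^ 3)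
      rw [← hc3 n, div_self (pow_ne_zero 3 (hcne n))] at h1
      simpa only [hs, div_pow] using h1
    · rw [hlam, hs, hs, hs, hs, Y]
      have h1 := hcne n
      have h2 := hcne (n + 1)
      field_simp
  have hmono : Monotone lam := monotone_nat_of_le_succ fun n => (hE s lam hO n).2.1
  have hle3 : ∀ n, lam n ≤ 3 := fun n => (hE s lam hO n).1
  have hbdd : BddAbove (Set.range lam) := ⟨3, by rintro _ ⟨n, rfl⟩; exact hle3 n⟩
  have hlim := tendsto_atTop_ciSup hmono hbdd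
  have hleL : ∀ n, lam n ≤ ⨆ n, lam n := fun n => le_ciSup hbdd n
  have hl0 : 0 < lam 0 := hO.pos 0
  have hq : 0 ≤ 3 / lam 0 := by positivity
  have hstep : ∀ (u v w : ℝ) (n : ℕ) (z : ℝ), 0 ≤ u → 0 ≤ v → 0 ≤ w → v ≤ u → w ≤ u →
      lam n * z = u ^ 2 + v ^ 2 + w ^ 2 → z ≤ 3 / lam 0 * u ^ 2 := by
    intro u v w n z hu hv hw hvu hwu h
    have hln : 0 < lam n := hO.pos n
    have h1 : lam n * z ≤ 3 * u ^ 2 := by
      rw [h]
      nlinarith [pow_le_pow_left₀ hv hvu 2, pow_le_pow_left₀ hw hwu 2]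
    have h2 : z ≤ 3 * u ^ 2 / lam n := by
      rw [le_div_iff₀ hln, mul_comm]
      exact h1
    refine h2.trans ?_
    rw [div_mul_eq_mul_div]
    exact div_le_div_of_nonneg_left (by positivity) hl0 (hmono (Nat.zero_le n))
  have hsr : ∀ n k, b ≤ k → s n (k + 1) ≤ s n k := fun n k hk =>
    div_le_div_of_nonneg_right (Y_anti hb n hk) (hc0 n).le
  have hsl : ∀ n k, k ≤ a → s n (k - 1) ≤ s n k := fun n k hk =>
    div_le_div_of_nonneg_right (Y_anti' ha n hk) (hc0 n).le
  obtain ⟨j0, hj0⟩ := tail (s := s) (q := 3 / lam 0) hq (b := b)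
    (fun k hk => by rw [hs, Y_zero hb 0 k (by simpa using hk), zero_div]) hO.nonneg hO.cube hsr
    (fun n k hk => by
      have h1 := hO.step n (k + 1)
      rw [add_sub_cancel_right] at h1
      exact hstep _ _ _ n _ (hO.nonneg n k) (hO.nonneg n (k + 1)) (hO.nonneg n (k + 1 + 1))
        (hsr n k hk) ((hsr n (k + 1) (by omega)).trans (hsr n k hk)) h1)
  obtain ⟨j1, hj1⟩ := tail (s := fun n k => s n (-k)) (q := 3 / lam 0) hq (b := -a)
    (fun k hk => by
      show s 0 (-k) = 0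
      rw [hs, Y_zero' ha 0 (-k) (by simp; omega), zero_div])
    (fun n k => hO.nonneg n (-k))
    (fun n => by
      have h1 := (Equiv.neg ℤ).hasSum_iff.2 (hO.cube n)
      exact h1)
    (fun n k hk => by
      show s n (-(k + 1)) ≤ s n (-k)
      rw [show -(k + 1) = -k - 1 by ring]
      exact hsl n (-k) (by omega))
    (fun n k hk => by
      show s (n + 1) (-(k + 1)) ≤ 3 / lam 0 * s n (-k) ^ 2
      have h1 := hO.step n (-(k + 1))
      rw [show -(k + 1) + 1 = -k by ring] at h1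
      have h2 : s n (-(k + 1)) ≤ s n (-k) := by
        rw [show -(k + 1) = -k - 1 by ring]
        exact hsl n (-k) (by omega)
      have h3 : s n (-(k + 1) - 1) ≤ s n (-(k + 1)) := hsl n (-(k + 1)) (by omega)
      exact hstep _ _ _ n _ (hO.nonneg n (-k)) (hO.nonneg n (-(k + 1)))
        (hO.nonneg n (-(k + 1) - 1)) h2 (h3.trans h2) (by rw [h1]; ring))
  have hle : ∀ n k, s n k ≤ 1 := fun n k => by
    have h1 : s n k ^ 3 ≤ 1 := le_hasSum (hO.cube n) k fun j _ => pow_nonneg (hO.nonneg n j) 3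
    by_contra hcon
    push Not at hcon
    exact absurd h1 (not_le.2 (one_lt_pow₀ hcon (by norm_num)))
  let R : ℕ := (b + j0).natAbs + (-a + j1).natAbs
  have hR : R = (b + j0).natAbs + (-a + j1).natAbs := rfl
  refine ⟨2 ^ R, ⨆ n, lam n, s, lam, c, ⟨hO, one_le_pow₀ (by norm_num), fun n k => ?_,
    hl0.trans_le (hleL 0), hmono, hle3, hleL, hlim⟩, hc0, fun n => ?_, fun n k => ?_⟩
  · rcases lt_or_ge k (b + j0) with h1 | h1
    · rcases lt_or_ge (-k) (-a + j1) with h2 | h2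
      · refine (hle n k).trans ?_
        have h3 := half_le (R := R) (m := k.natAbs) (i := 0) (by rw [hR]; omega)
        simpa using h3
      · obtain ⟨i, hi⟩ := Int.eq_ofNat_of_zero_le (sub_nonneg.2 h2)
        have h3 := hj1 n i
        have e : -(-a + (j1 : ℤ) + i) = k := by
          have : (i : ℤ) = -k - (-a + j1) := hi.symm
          rw [this]; ring
        simp only [e] at h3
        exact h3.trans (half_le (by rw [hR]; omega))
    · obtain ⟨i, hi⟩ := Int.eq_ofNat_of_zero_le (sub_nonneg.2 h1)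
      have h3 := hj0 n i
      have e : b + (j0 : ℤ) + i = k := by
        have : (i : ℤ) = k - (b + j0) := hi.symm
        rw [this]; ring
      rw [e] at h3
      exact h3.trans (half_le (by rw [hR]; omega))
  · rw [hlam]
    have h1 := hcne n
    field_simp
  · rw [Zc_eq, hs]
    have h1 := hcne n
    field_simp

end Pool.Agent.K3h49.LT
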